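import Pool.Agent.Helper5.LCU.Stmts

set_option autoImplicit false

open Finset Pool.Agent.Helper89.UB

namespace Pool.Agent.Helper5.LCU

theorem gl_powerset {n : ℕ} (D1 D2 : Finset (Fin n)) (h : Disjoint D1 D2)
    (g : Finset (Fin n) → ℤ) :
    ∑ X ∈ (D1 ∪ D2).powerset, g X = ∑ X1 ∈ D1.powerset, ∑ X2 ∈ D2.powerset, g (X1 ∪ X2) := by
  rw [← sum_product' D1.powerset D2.powerset (fun X1 X2 => g (X1 ∪ X2))]
  symm
  apply sum_nbij' (fun p => p.1 ∪ p.2) (fun X => (X ∩ D1, X ∩ D2))
  · intro p hp
    rw [mem_product, mem_powerset, mem_powerset] at hp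
    exact mem_powerset.2 (union_subset_union hp.1 hp.2)
  · intro X _
    rw [mem_product, mem_powerset, mem_powerset]
    exact ⟨inter_subset_right, inter_subset_right⟩
  · rintro ⟨X1, X2⟩ hp
    rw [mem_product, mem_powerset, mem_powerset] at hp
    obtain ⟨h1, h2⟩ := hp
    simp only at h1 h2
    have e1 : (X1 ∪ X2) ∩ D1 = X1 := by
      ext z
      rw [mem_inter, mem_union]
      constructor
      · rintro ⟨h3 | h3, h4⟩
        · exact h3
        · exact absurd h4 (fun h5 => (Finset.disjoint_left.1 h) h5 (h2 h3))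
      · exact fun h3 => ⟨Or.inl h3, h1 h3⟩
    have e2 : (X1 ∪ X2) ∩ D2 = X2 := by
      ext z
      rw [mem_inter, mem_union]
      constructor
      · rintro ⟨h3 | h3, h4⟩
        · exact absurd h4 (Finset.disjoint_left.1 h (h1 h3))
        · exact h3
      · exact fun h3 => ⟨Or.inr h3, h2 h3⟩
    simp only [e1, e2]
  · intro X hX
    rw [mem_powerset] at hX
    simp only
    rw [← inter_union_distrib_left]
    exact inter_eq_left.2 hX
  · intro p _
    rfl

theorem gl_reduce {n : ℕ} (E : Finset (Finset (Fin n))) (C W : Finset (Fin n)) (v : Fin n)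
    (hv : v ∈ C) (hC : Clique E C) (F : Finset (Fin n) → ℤ) :
    ∑ X ∈ (W.erase v).powerset, fz E (insert v X) * F X =
      ∑ X ∈ (W \ C).powerset, fz E (insert v X) * F X := by
  symm
  apply sum_subset
  · apply powerset_mono.2
    intro z hz
    rw [mem_sdiff] at hz
    rw [mem_erase]
    exact ⟨fun h => hz.2 (h ▸ hv), hz.1⟩
  · intro X hX hX'
    rw [mem_powerset] at hX hX'
    rw [Finset.not_subset] at hX'
    obtain ⟨u, hu, hu'⟩ := hX'
    have h1 := mem_erase.1 (hX hu)
    have h2 : u ∈ C := by
      by_contra h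
      exact hu' (mem_sdiff.2 ⟨h1.2, h⟩)
    have h3 := hC u h2 v hv h1.1
    have h4 : ¬ Al E (insert v X) := by
      intro h5
      apply h5 _ h3
      intro z hz
      rw [mem_insert, mem_singleton] at hz
      rcases hz with rfl | rfl
      · exact mem_insert_of_mem hu
      · exact mem_insert_self _ _
    unfold fz
    rw [if_neg h4, zero_mul]

theorem st_GL (hGL0 : ST_GL0) (hVR : ST_VR) : ST_GL := by
  intro n E A B hcl hed q
  obtain ⟨k, hk⟩ : ∃ k, (A ∩ B).card = k := ⟨_, rfl⟩
  rw [hk]
  induction k generalizing A B q with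
  | zero =>
    rw [Nat.descFactorial_zero, Nat.cast_one, mul_one]
    exact hGL0 n E A B (disjoint_iff_inter_eq_empty.2 (card_eq_zero.1 hk)) hed q
  | succ k ih =>
    obtain ⟨v, hv⟩ : (A ∩ B).Nonempty := card_pos.1 (by omega)
    have hvA := (mem_inter.1 hv).1
    have hvB := (mem_inter.1 hv).2
    cases q with
    | zero =>
      have hA : A ≠ ∅ := ne_empty_of_mem hvA
      have hAB : A ∪ B ≠ ∅ := ne_empty_of_mem (mem_union_left _ hvA)
      have h1 : pw (fz E) 0 (A ∪ B) = 0 := if_neg hAB
      have h2 : pw (fz E) 0 A = 0 := if_neg hA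
      rw [h1, h2, zero_mul, zero_mul]
    | succ q =>
      have key : ∀ X1 ⊆ A \ B, ∀ X2 ⊆ B \ A,
          fz E (insert v (X1 ∪ X2)) = fz E (insert v X1) * fz E (insert v X2) := by
        intro X1 hX1 X2 hX2
        have h1 : Al E (insert v (X1 ∪ X2)) ↔ Al E (insert v X1) ∧ Al E (insert v X2) := by
          constructor
          · intro h
            refine ⟨fun e he hs => h e he (hs.trans (insert_subset_insert v subset_union_left)),
              fun e he hs => h e he (hs.trans (insert_subset_insert v subset_union_right))⟩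
          · rintro ⟨h1, h2⟩ e he hs
            have h3 : e ⊆ A ∪ B := by
              intro z hz
              rcases mem_insert.1 (hs hz) with rfl | h4
              · exact mem_union_left _ hvA
              · rcases mem_union.1 h4 with h4 | h4
                · exact mem_union_left _ (mem_sdiff.1 (hX1 h4)).1
                · exact mem_union_right _ (mem_sdiff.1 (hX2 h4)).1
            rcases hed e he h3 with h4 | h4
            · apply h1 e he
              intro z hz
              rcases mem_insert.1 (hs hz) with rfl | h5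
              · exact mem_insert_self _ _
              · rcases mem_union.1 h5 with h5 | h5
                · exact mem_insert_of_mem h5
                · exact absurd (h4 hz) (mem_sdiff.1 (hX2 h5)).2
            · apply h2 e he
              intro z hz
              rcases mem_insert.1 (hs hz) with rfl | h5
              · exact mem_insert_self _ _
              · rcases mem_union.1 h5 with h5 | h5
                · exact absurd (h4 hz) (mem_sdiff.1 (hX1 h5)).2
                · exact mem_insert_of_mem h5
        unfold fz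
        by_cases h2 : Al E (insert v X1)
        · by_cases h3 : Al E (insert v X2)
          · rw [if_pos h2, if_pos h3, if_pos (h1.2 ⟨h2, h3⟩), mul_one]
          · rw [if_neg h3, if_neg (fun h => h3 (h1.1 h).2), mul_zero]
        · rw [if_neg h2, if_neg (fun h => h2 (h1.1 h).1), zero_mul]
      have key2 : ∀ X1 ⊆ A \ B, ∀ X2 ⊆ B \ A,
          pw (fz E) q (((A ∪ B).erase v) \ (X1 ∪ X2)) * (q.descFactorial k : ℤ) =
            pw (fz E) q ((A.erase v) \ X1) * pw (fz E) q ((B.erase v) \ X2) := by
        intro X1 hX1 X2 hX2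
        have h1 : ((A ∪ B).erase v) \ (X1 ∪ X2) = ((A.erase v) \ X1) ∪ ((B.erase v) \ X2) := by
          ext z
          simp only [mem_sdiff, mem_union, mem_erase]
          constructor
          · rintro ⟨⟨h1, h2 | h2⟩, h3⟩
            · exact Or.inl ⟨⟨h1, h2⟩, fun h => h3 (Or.inl h)⟩
            · exact Or.inr ⟨⟨h1, h2⟩, fun h => h3 (Or.inr h)⟩
          · rintro (⟨⟨h1, h2⟩, h3⟩ | ⟨⟨h1, h2⟩, h3⟩)
            · refine ⟨⟨h1, Or.inl h2⟩, ?_⟩
              rintro (h4 | h4)
              · exact h3 h4
              · exact (mem_sdiff.1 (hX2 h4)).2 h2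
            · refine ⟨⟨h1, Or.inr h2⟩, ?_⟩
              rintro (h4 | h4)
              · exact (mem_sdiff.1 (hX1 h4)).2 h2
              · exact h3 h4
        have h2 : ((A.erase v) \ X1) ∩ ((B.erase v) \ X2) = (A ∩ B).erase v := by
          ext z
          simp only [mem_inter, mem_sdiff, mem_erase]
          constructor
          · rintro ⟨⟨⟨h1, h2⟩, h3⟩, ⟨⟨h4, h5⟩, h6⟩⟩
            exact ⟨h1, h2, h5⟩
          · rintro ⟨h1, h2, h3⟩
            exact ⟨⟨⟨h1, h2⟩, fun h4 => (mem_sdiff.1 (hX1 h4)).2 h3⟩,
              ⟨⟨h1, h3⟩, fun h4 => (mem_sdiff.1 (hX2 h4)).2 h2⟩⟩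
        rw [h1]
        apply ih
        · rw [h2]
          intro u hu w hw huw
          exact hcl u (mem_of_mem_erase hu) w (mem_of_mem_erase hw) huw
        · intro e he hs
          have h3 : e ⊆ A ∪ B := by
            intro z hz
            rcases mem_union.1 (hs hz) with h4 | h4
            · exact mem_union_left _ (mem_of_mem_erase (mem_sdiff.1 h4).1)
            · exact mem_union_right _ (mem_of_mem_erase (mem_sdiff.1 h4).1)
          rcases hed e he h3 with h4 | h4
          · left
            intro z hz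
            rcases mem_union.1 (hs hz) with h5 | h5
            · exact h5
            · have h6 := mem_erase.1 (mem_sdiff.1 h5).1
              exact mem_sdiff.2 ⟨mem_erase.2 ⟨h6.1, h4 hz⟩,
                fun h7 => (mem_sdiff.1 (hX1 h7)).2 h6.2⟩
          · right
            intro z hz
            rcases mem_union.1 (hs hz) with h5 | h5
            · have h6 := mem_erase.1 (mem_sdiff.1 h5).1
              exact mem_sdiff.2 ⟨mem_erase.2 ⟨h6.1, h4 hz⟩,
                fun h7 => (mem_sdiff.1 (hX2 h7)).2 h6.2⟩
            · exact h5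
        · rw [h2, card_erase_of_mem hv, hk]
          rfl
      have hU := hVR n (fz E) q (A ∪ B) v (mem_union_left _ hvA)
      have hA := hVR n (fz E) q A v hvA
      have hB := hVR n (fz E) q B v hvB
      rw [gl_reduce E (A ∩ B) (A ∪ B) v hv hcl] at hU
      rw [gl_reduce E (A ∩ B) A v hv hcl] at hA
      rw [gl_reduce E (A ∩ B) B v hv hcl] at hB
      have e1 : A \ (A ∩ B) = A \ B := by
        ext z
        simp only [mem_sdiff, mem_inter]
        tauto
      have e2 : B \ (A ∩ B) = B \ A := by
        ext z
        simp only [mem_sdiff, mem_inter]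
        tauto
      have e3 : (A ∪ B) \ (A ∩ B) = (A \ B) ∪ (B \ A) := by
        ext z
        simp only [mem_sdiff, mem_inter, mem_union]
        tauto
      have hd : Disjoint (A \ B) (B \ A) := by
        rw [Finset.disjoint_left]
        intro z h1 h2
        exact (mem_sdiff.1 h1).2 (mem_sdiff.1 h2).1
      rw [e1] at hA
      rw [e2] at hB
      rw [e3, gl_powerset _ _ hd] at hU
      rw [hU, hA, hB, Nat.succ_descFactorial_succ]
      have h1 : (∑ X1 ∈ (A \ B).powerset, ∑ X2 ∈ (B \ A).powerset, fz E (insert v (X1 ∪ X2)) *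
          pw (fz E) q (((A ∪ B).erase v) \ (X1 ∪ X2))) * (q.descFactorial k : ℤ) =
          (∑ X ∈ (A \ B).powerset, fz E (insert v X) * pw (fz E) q ((A.erase v) \ X)) *
          ∑ X ∈ (B \ A).powerset, fz E (insert v X) * pw (fz E) q ((B.erase v) \ X) := by
        rw [sum_mul_sum, sum_mul]
        refine sum_congr rfl fun X1 hX1 => ?_
        rw [sum_mul]
        refine sum_congr rfl fun X2 hX2 => ?_
        rw [mem_powerset] at hX1 hX2
        rw [key X1 hX1 X2 hX2, mul_assoc, key2 X1 hX1 X2 hX2]
        ring
      push_cast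
      calc ((q : ℤ) + 1) * (∑ X1 ∈ (A \ B).powerset, ∑ X2 ∈ (B \ A).powerset,
            fz E (insert v (X1 ∪ X2)) * pw (fz E) q (((A ∪ B).erase v) \ (X1 ∪ X2))) *
            (((q : ℤ) + 1) * (q.descFactorial k : ℤ)) =
          ((q : ℤ) + 1) * ((q : ℤ) + 1) * ((∑ X1 ∈ (A \ B).powerset,
            ∑ X2 ∈ (B \ A).powerset, fz E (insert v (X1 ∪ X2)) *
            pw (fz E) q (((A ∪ B).erase v) \ (X1 ∪ X2))) * (q.descFactorial k : ℤ)) := by ring
        _ = _ := by rw [h1]; ring

end Pool.Agent.Helper5.LCU
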